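import Pool.Agent.Helper77.SD.St2

set_option autoImplicit false

namespace Pool.Agent.Helper83.SD

open MeasureTheory Metric Set
open scoped Gradient RealInnerProductSpace ENNReal
open Pool.Agent.Helper77.SD

/-- the gradient of a composition -/
lemma grad_comp {d : ℕ} {v : E d → ℝ} {Φ : E d → E d} {x : E d} (hv : DifferentiableAt ℝ v (Φ x))
    (hΦ : DifferentiableAt ℝ Φ x) :
    ∇ (fun x => v (Φ x)) x = ContinuousLinearMap.adjoint (fderiv ℝ Φ x) (∇ v (Φ x)) := by
  have hc : fderiv ℝ (fun x => v (Φ x)) x = (fderiv ℝ v (Φ x)).comp (fderiv ℝ Φ x) :=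
    fderiv_comp x hv hΦ
  refine ext_inner_right ℝ fun z => ?_
  rw [ContinuousLinearMap.adjoint_inner_left]
  simp only [gradient, InnerProductSpace.toDual_symm_apply]
  rw [hc]
  rfl

/-- continuous functions are square integrable on balls -/
lemma memLp_ball {d : ℕ} {F : Type*} [NormedAddCommGroup F] {f : E d → F} (hf : Continuous f) (R : ℝ) :
    MemLp f 2 (volume.restrict (ball (0 : E d) R)) := by
  obtain ⟨C, hC⟩ := (isCompact_closedBall (0 : E d) R).exists_bound_of_continuousOn hf.continuousOn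
  have : IsFiniteMeasure (volume.restrict (ball (0 : E d) R)) := ⟨by simpa using measure_ball_lt_top⟩
  refine MemLp.of_bound hf.aestronglyMeasurable C ?_
  filter_upwards [ae_restrict_mem measurableSet_ball] with x hx
  exact hC x (ball_subset_closedBall hx)

/-- the image of a ball -/
lemma map_ball {d : ℕ} {Φ : E d → E d} {κ : ℝ} (hs : ContDiff ℝ 1 Φ) (hb : ∀ x, ‖fderiv ℝ Φ x‖ ≤ κ) (R : ℝ) (x : E d)
    (hx : x ∈ ball (0 : E d) R) : Φ x ∈ ball (0 : E d) (‖Φ 0‖ + κ * R + 1) := by
  have hκ : 0 ≤ κ := (norm_nonneg _).trans (hb 0)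
  have h1 : ‖Φ x - Φ 0‖ ≤ κ * ‖x - 0‖ :=
    convex_univ.norm_image_sub_le_of_norm_fderiv_le
      (fun y _ => (hs.differentiable (by norm_num)).differentiableAt) (fun y _ => hb y) (mem_univ _) (mem_univ _)
  rw [sub_zero] at h1
  rw [mem_ball_zero_iff] at hx ⊢
  have h2 : ‖Φ x‖ ≤ ‖Φ x - Φ 0‖ + ‖Φ 0‖ := by
    have := norm_add_le (Φ x - Φ 0) (Φ 0)
    simpa using this
  have h3 : κ * ‖x‖ ≤ κ * R := mul_le_mul_of_nonneg_left hx.le hκ
  linarith

/-- local composition with `Φ` -/
lemma loc_comp {d : ℕ} {F : Type*} [NormedAddCommGroup F] {Φ : E d → E d} {κ : ℝ}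
    (h1 : ∀ g : E d → F, L2 g → L2 (fun x => g (Φ x)))
    (h2 : ∀ g : E d → F, L2 g → ∫ x, ‖g (Φ x)‖ ^ 2 ≤ κ * ∫ y, ‖g y‖ ^ 2)
    {R R' : ℝ} (hb : ∀ x ∈ ball (0 : E d) R, Φ x ∈ ball (0 : E d) R') {g : E d → F}
    (hg : MemLp g 2 (volume.restrict (ball (0 : E d) R'))) :
    MemLp (fun x => g (Φ x)) 2 (volume.restrict (ball (0 : E d) R)) ∧
      ∫ x in ball (0 : E d) R, ‖g (Φ x)‖ ^ 2 ≤ κ * ∫ y in ball (0 : E d) R', ‖g y‖ ^ 2 := by
  have hi : L2 ((ball (0 : E d) R').indicator g) := (memLp_indicator_iff_restrict measurableSet_ball).2 hg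
  have hc := h1 _ hi
  have he : ∀ x ∈ ball (0 : E d) R, (ball (0 : E d) R').indicator g (Φ x) = g (Φ x) := fun x hx =>
    indicator_of_mem (hb x hx) _
  constructor
  · refine (hc.restrict (ball (0 : E d) R)).ae_eq ?_
    filter_upwards [ae_restrict_mem measurableSet_ball] with x hx
    exact he x hx
  · have h3 := h2 _ hi
    have h4 : ∫ y, ‖(ball (0 : E d) R').indicator g y‖ ^ 2 = ∫ y in ball (0 : E d) R', ‖g y‖ ^ 2 := by
      rw [← integral_indicator measurableSet_ball]
      congr 1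
      ext y
      by_cases hy : y ∈ ball (0 : E d) R'
      · simp only [indicator_of_mem hy]
      · simp only [indicator_of_notMem hy, norm_zero, ne_eq, OfNat.ofNat_ne_zero, not_false_eq_true, zero_pow]
    rw [h4] at h3
    refine le_trans ?_ h3
    have h5 : ∫ x in ball (0 : E d) R, ‖g (Φ x)‖ ^ 2 =
        ∫ x in ball (0 : E d) R, ‖(ball (0 : E d) R').indicator g (Φ x)‖ ^ 2 := by
      refine setIntegral_congr_fun measurableSet_ball fun x hx => ?_
      simp only [he x hx]
    rw [h5]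
    exact setIntegral_le_integral (integrable_sq hc) (Filter.Eventually.of_forall fun x => sq_nonneg _)

theorem hDIF (h : StCV) : StDIF := by
  intro d Φ Ψ l l' κ hD A V u G hS
  obtain ⟨hcv, hl, hr, -, -, c1, c2, c3, c4⟩ := h d Φ Ψ l l' κ hD
  have hκ : 0 ≤ κ := (norm_nonneg _).trans (hD.bdd 0)
  have hdΦ : ∀ x, DifferentiableAt ℝ Φ x := fun x => (hD.smooth.differentiable (by norm_num)).differentiableAt
  have hdΨ : ∀ x, DifferentiableAt ℝ Ψ x := fun x => (hD.smooth'.differentiable (by norm_num)).differentiableAt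
  have hadj : ∀ x, ‖ContinuousLinearMap.adjoint (fderiv ℝ Φ x)‖ ≤ κ := fun x => by
    rw [LinearIsometryEquiv.norm_map]
    exact hD.bdd x
  have hcadj : Continuous fun x => ContinuousLinearMap.adjoint (fderiv ℝ Φ x) :=
    (LinearIsometryEquiv.continuous _).comp (hD.smooth.continuous_fderiv (by norm_num))
  have hmeas : ∀ (R : ℝ) (g : E d → E d), AEStronglyMeasurable g (volume.restrict (ball (0 : E d) R)) →
      AEStronglyMeasurable (fun x => ContinuousLinearMap.adjoint (fderiv ℝ Φ x) (g x))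
        (volume.restrict (ball (0 : E d) R)) := fun R g hg =>
    isBoundedBilinearMap_apply.continuous.comp_aestronglyMeasurable (hcadj.aestronglyMeasurable.prodMk hg)
  refine ⟨fun R => ?_, fun R => ?_, fun R ε hε => ?_, fun ψ hψ hψc => ?_⟩
  · exact (loc_comp c1 c3 (map_ball hD.smooth hD.bdd R) (hS.loc _)).1
  · have h1 := (loc_comp c2 c4 (map_ball hD.smooth hD.bdd R) (hS.locG _)).1
    refine h1.of_le_mul (c := κ) (hmeas R _ h1.1) (Filter.Eventually.of_forall fun x => ?_)
    exact ((ContinuousLinearMap.adjoint (fderiv ℝ Φ x)).le_opNorm _).trans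
      (mul_le_mul_of_nonneg_right (hadj x) (norm_nonneg _))
  · obtain ⟨v, hv, hv1, hv2⟩ := hS.app (‖Φ 0‖ + κ * R + 1) (ε / (κ + 1) ^ 3) (by positivity)
    have hm : ∀ y : ℝ, y < ε / (κ + 1) ^ 3 → 0 ≤ y → κ * y < ε ∧ κ ^ 2 * (κ * y) < ε := by
      intro y hy hy0
      have h0 : 0 < (κ + 1) ^ 3 := by positivity
      rw [lt_div_iff₀ h0] at hy
      constructor
      · refine lt_of_le_of_lt ?_ hy
        rw [mul_comm]
        refine mul_le_mul_of_nonneg_left ?_ hy0
        nlinarith [sq_nonneg κ, mul_nonneg hκ (sq_nonneg κ)]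
      · refine lt_of_le_of_lt ?_ hy
        have : κ ^ 2 * (κ * y) = y * κ ^ 3 := by ring
        rw [this]
        refine mul_le_mul_of_nonneg_left ?_ hy0
        exact pow_le_pow_left₀ hκ (by linarith) 3
    have hvd : ∀ x, DifferentiableAt ℝ v x := fun x => (hv.differentiable (by norm_num)).differentiableAt
    refine ⟨fun x => v (Φ x), hv.comp hD.smooth, ?_, ?_⟩
    · have hL : MemLp (fun y => v y - u y) 2 (volume.restrict (ball (0 : E d) (‖Φ 0‖ + κ * R + 1))) :=
        (memLp_ball hv.continuous _).sub (hS.loc _)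
      have h1 := (loc_comp c1 c3 (map_ball hD.smooth hD.bdd R) hL).2
      simp only [Real.norm_eq_abs, sq_abs] at h1
      exact lt_of_le_of_lt h1 (hm _ hv1 (integral_nonneg fun _ => sq_nonneg _)).1
    · have hL : MemLp (fun y => ∇ v y - G y) 2 (volume.restrict (ball (0 : E d) (‖Φ 0‖ + κ * R + 1))) :=
        (memLp_ball (continuous_grad hv) _).sub (hS.locG _)
      have h0 := loc_comp c2 c4 (map_ball hD.smooth hD.bdd R) hL
      have h1 : ∫ x in ball (0 : E d) R, ‖∇ (fun x => v (Φ x)) x - pullG Φ G x‖ ^ 2 ≤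
          κ ^ 2 * ∫ x in ball (0 : E d) R, ‖∇ v (Φ x) - G (Φ x)‖ ^ 2 := by
        rw [← integral_const_mul]
        refine integral_mono_of_nonneg (Filter.Eventually.of_forall fun x => sq_nonneg _) ?_
          (Filter.Eventually.of_forall fun x => ?_)
        · exact ((memLp_two_iff_integrable_sq_norm h0.1.1).1 h0.1).const_mul _
        · simp only [pullG]
          rw [grad_comp (hvd _) (hdΦ x), ← map_sub, ← mul_pow]
          refine pow_le_pow_left₀ (norm_nonneg _) ?_ 2
          exact ((ContinuousLinearMap.adjoint (fderiv ℝ Φ x)).le_opNorm _).trans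
            (mul_le_mul_of_nonneg_right (hadj x) (norm_nonneg _))
      refine lt_of_le_of_lt (h1.trans (mul_le_mul_of_nonneg_left h0.2 (sq_nonneg κ))) ?_
      exact (hm _ hv2 (integral_nonneg fun _ => sq_nonneg _)).2
  · let e : E d ≃ₜ E d :=
      { toFun := Ψ
        invFun := Φ
        left_inv := hD.right
        right_inv := hD.left
        continuous_toFun := hD.smooth'.continuous
        continuous_invFun := hD.smooth.continuous }
    have hψd : ∀ x, DifferentiableAt ℝ ψ x := fun x => (hψ.differentiable (by norm_num)).differentiableAt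
    have hcs : HasCompactSupport (fun y => ψ (Ψ y)) := hψc.comp_homeomorph e
    have heq := hS.eq (fun y => ψ (Ψ y)) (hψ.comp hD.smooth') hcs
    rw [hcv, hcv (fun x => V x * u x * ψ (Ψ x))] at heq
    have e1 : (∫ x, ⟪pullA Φ Ψ A x (pullG Φ G x), ∇ ψ x⟫) =
        ∫ x, |(fderiv ℝ Φ x).det| * ⟪A (Φ x) (G (Φ x)), ∇ (fun y => ψ (Ψ y)) (Φ x)⟫ := by
      congr 1
      ext x
      have hG : ContinuousLinearMap.adjoint (fderiv ℝ Ψ (Φ x)) (pullG Φ G x) = G (Φ x) := by
        have h1 := congrArg (fun T => ContinuousLinearMap.adjoint T (G (Φ x))) (hr x)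
        simp only [ContinuousLinearMap.adjoint_comp, ContinuousLinearMap.coe_comp, Function.comp_apply] at h1
        rw [pullG, h1]
        exact ext_inner_right ℝ fun z => by rw [ContinuousLinearMap.adjoint_inner_left]; rfl
      rw [grad_comp (hψd _) (hdΨ _), hD.left x, ContinuousLinearMap.adjoint_inner_right]
      simp only [pullA, _root_.smul_apply, ContinuousLinearMap.coe_comp, Function.comp_apply,
        inner_smul_left, hG]
      simp
    have e2 : (∫ x, pullV Φ V x * u (Φ x) * ψ x) =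
        ∫ x, |(fderiv ℝ Φ x).det| * (V (Φ x) * u (Φ x) * ψ (Ψ (Φ x))) := by
      congr 1
      ext x
      rw [hD.left x, pullV]
      ring
    rw [e1, e2]
    exact heq

end Pool.Agent.Helper83.SD
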